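import Mathlib
import Pool.Agent.X26.MC.Chen

/-!
# Several prime pairs `p - a_i, p`, with a `P₂`: the same patterns for all the differences `a_i`

Let `a_1, …, a_M` be positive even numbers, uniformly `a_i ≤ x` (for instance `a_i ≤ log ^ 2 x` as in the problem), and
let `W_1, …, W_M ⊆ [1, x]` be arbitrary windows of length `X ≥ θ x`. For every `D` between a power of `log x` and `X` a
positive proportion of the vectors `d ∈ [1, D] ^ m` serves for ALL `i` and for ALL `F ⊆ {0, …, k - 1} ^ m` containing `0`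
at once: the number of the primes `p ∈ W_i` for which all the `p + ∑ f_j d_j`, `f ∈ F`, are primes of `W_i` and all the
`p - a_i + ∑ f_j d_j` are products of at most two primes has the order which the Hardy-Littlewood conjecture predicts for
the set of the `2 |F|` shifts `∑ f_j d_j` and `∑ f_j d_j - a_i`, uniformly in the `a_i`.
-/

set_option autoImplicit false

namespace Pool.Agent.Results.MP_678834_nt.CommonPatterns

open Finset

/-- The number of the residue classes modulo `q` occupied by `T`. -/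
def nu (T : Finset ℤ) (q : ℕ) : ℕ := (T.image (fun t : ℤ => t % q)).card

/-- The local factor `(1 - ν(q) / q) (1 - 1 / q) ^ (-|T|)`. -/
noncomputable def loc (T : Finset ℤ) (q : ℕ) : ℝ := (1 - (nu T q : ℝ) / q) / (1 - 1 / (q : ℝ)) ^ T.card

/-- The singular series, the product of the local factors over all primes. -/
noncomputable def Sing (T : Finset ℤ) : ℝ := ∏' q : Nat.Primes, loc T q

open Classical in
/-- The primes `p` in `(y, y + X]` for which `|p - a|` is not `0` and a product of at most two primes, all larger than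
`x ^ (1 / 9)`. -/
noncomputable def Good (x a y X : ℕ) : Finset ℕ :=
  (Ioc y (y + X)).filter (fun p : ℕ => p.Prime ∧ (p : ℤ) - a ≠ 0 ∧ ((p : ℤ) - a).natAbs.primeFactorsList.length ≤ 2 ∧
    ∀ q : ℕ, q.Prime → (q : ℤ) ∣ (p : ℤ) - a → (x : ℝ) ^ (1 / 9 : ℝ) < q)

/-- The set of the integers `∑ f_j d_j` and `∑ f_j d_j - a`, `f ∈ F`. -/
def shifts (a : ℕ) {m : ℕ} (d : Fin m → ℕ) (F : Finset (Fin m → ℕ)) : Finset ℤ :=
  F.image (fun f => ((∑ j, f j * d j : ℕ) : ℤ)) ∪ F.image (fun f => ((∑ j, f j * d j : ℕ) : ℤ) - a)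

/-- For all `M`, `m` and `k` there are `c > 0` and `B` with: for every `θ > 0`, all large `x`, all positive even numbers
`a_1, …, a_M ≤ x`, all `y_1, …, y_M` and `X ≥ θ x` with `y_i + X ≤ x`, and every `D` from `log ^ B x` to `X`, at least
`c D ^ m` vectors `d` with entries in `[1, D]` have the following property. For all sets `F` of vectors with entries in
`{0, ..., k - 1}` which contain the vector `0` and for all `i`, the `2 |F|` integers `∑ f_j d_j`, `∑ f_j d_j - a_i`,
`f ∈ F`, are distinct and miss a residue class modulo every prime, and at least `c 𝔖 X / log ^ (2 |F|) x` elements `p` of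
`Good x a_i y_i X` have all the `p + ∑ f_j d_j`, `f ∈ F`, in `Good x a_i y_i X`, where `𝔖` is the singular series of that
set. -/
theorem result (M m k : ℕ) : ∃ c : ℝ, 0 < c ∧ ∃ B : ℕ, ∀ θ : ℝ, 0 < θ → ∃ x₀ : ℕ, ∀ x : ℕ, x₀ ≤ x →
    ∀ a : Fin M → ℕ, (∀ i, Even (a i) ∧ 0 < a i ∧ a i ≤ x) → ∀ (y : Fin M → ℕ) (X D : ℕ), (∀ i, y i + X ≤ x) →
    θ * x ≤ X → X ≤ x → Real.log x ^ B ≤ D → D ≤ X →
    ∃ G : Finset (Fin m → ℕ), (∀ d ∈ G, ∀ j, 1 ≤ d j ∧ d j ≤ D) ∧ c * (D : ℝ) ^ m ≤ G.card ∧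
      ∀ d ∈ G, ∀ F : Finset (Fin m → ℕ), (∀ f ∈ F, ∀ j, f j < k) → (fun _ => 0) ∈ F → ∀ i,
        (shifts (a i) d F).card = 2 * F.card ∧ (∀ q : ℕ, q.Prime → nu (shifts (a i) d F) q < q) ∧
        c * (Sing (shifts (a i) d F) * (X / Real.log x ^ (2 * F.card))) ≤
          (((Good x (a i) (y i) X).filter (fun n => ∀ f ∈ F, n + ∑ j, f j * d j ∈ Good x (a i) (y i) X)).card : ℝ) := by
  classical
  obtain ⟨J, -, h0⟩ := Pool.Agent.X26.MC.chenM M (fun _ => 2)
  obtain ⟨c, hc, B, h1⟩ := h0 m k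
  refine ⟨c, hc, B, fun θ hθ => ?_⟩
  obtain ⟨x₀, h2⟩ := h1 θ hθ
  refine ⟨x₀, fun x hx a ha y X D hyX hθX hXx hD hDX => ?_⟩
  have hadm : ∀ i, Pool.Agent.Y843.AC.HL.Tup 2 x ({0, -(a i : ℤ)} : Finset ℤ) := by
    intro i
    obtain ⟨he, hne, hsz⟩ := ha i
    refine ⟨card_pair (by omega), ?_, ?_⟩
    · intro q hq
      unfold Pool.Agent.Y843.AC.HL.nu
      rcases hq.eq_two_or_odd' with h3 | h3
      · subst h3
        obtain ⟨e, he⟩ := he
        have : (({0, -(a i : ℤ)} : Finset ℤ).image (fun t : ℤ => t % ((2 : ℕ) : ℤ))) ⊆ {0} := by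
          intro t ht
          rw [mem_image] at ht
          obtain ⟨s, hs, rfl⟩ := ht
          rw [mem_insert, mem_singleton] at hs
          rw [mem_singleton]
          rcases hs with rfl | rfl
          · norm_num
          · push_cast; omega
        calc _ ≤ #({0} : Finset ℤ) := card_le_card this
          _ < 2 := by rw [card_singleton]; norm_num
      · have h4 : q ≠ 2 := by
          rintro rfl
          exact absurd h3 (by decide)
        have h5 := hq.two_le
        calc _ ≤ #({0, -(a i : ℤ)} : Finset ℤ) := card_image_le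
          _ ≤ 2 := card_le_two
          _ < q := by omega
    · intro t ht
      rw [mem_insert, mem_singleton] at ht
      rcases ht with rfl | rfl
      · simp
      · rw [abs_neg, Nat.abs_cast]; exact_mod_cast hsz
  obtain ⟨G, g1, g2, g3⟩ := h2 x hx (fun i => {0, -(a i : ℤ)}) hadm (fun i => mem_insert_self _ _) (fun i => -(a i : ℤ))
    (fun i => by simp) (fun i => by have := (ha i).2.1; omega) y X D hyX hXx hθX hD hDX
  refine ⟨G, ?_, g2, fun d hd F hF hF0 i => ?_⟩
  · intro d hd j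
    have := g1 hd
    rw [Fintype.mem_piFinset] at this
    exact mem_Icc.1 (this j)
  obtain ⟨k1, k2, k3⟩ := g3 d hd F hF hF0 i
  have hS : Pool.Agent.X26.GP.TF ({0, -(a i : ℤ)} : Finset ℤ) d F = shifts (a i) d F := by
    unfold Pool.Agent.X26.GP.TF shifts
    ext t
    simp only [mem_image, mem_product, mem_insert, mem_singleton, mem_union, Prod.exists]
    constructor
    · rintro ⟨b, f, ⟨rfl | rfl, hf⟩, rfl⟩
      · left; exact ⟨f, hf, by ring⟩
      · right; exact ⟨f, hf, by ring⟩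
    · rintro (⟨f, hf, rfl⟩ | ⟨f, hf, rfl⟩)
      · exact ⟨0, f, ⟨Or.inl rfl, hf⟩, by ring⟩
      · exact ⟨-(a i : ℤ), f, ⟨Or.inr rfl, hf⟩, by ring⟩
  rw [hS] at k1 k2 k3
  have e : Pool.Agent.Y843.AC.HL.gg (shifts (a i) d F) x =
      Sing (shifts (a i) d F) / Real.log x ^ (shifts (a i) d F).card := rfl
  rw [e, k1] at k3
  refine ⟨k1, k2, ?_⟩
  have e2 : c * (Sing (shifts (a i) d F) * (X / Real.log x ^ (2 * F.card))) =
      c * (X * (Sing (shifts (a i) d F) / Real.log x ^ (2 * F.card))) := by ring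
  rw [e2]
  refine le_trans k3 (Nat.cast_le.2 (card_le_card ?_))
  have hsub : ∀ n ∈ Pool.Agent.Y843.AC.HL.Ch J x ({0, -(a i : ℤ)} : Finset ℤ) (-(a i : ℤ)) (y i) (y i + X),
      n ∈ Good x (a i) (y i) X := by
    intro n hn
    unfold Pool.Agent.Y843.AC.HL.Ch at hn
    unfold Good
    rw [mem_filter] at hn ⊢
    obtain ⟨hn1, hn2, hn3, -⟩ := hn
    rw [← sub_eq_add_neg] at hn3
    exact ⟨hn1, hn2, hn3.1, hn3.2.1, hn3.2.2⟩
  intro n hn
  rw [mem_filter] at hn ⊢
  exact ⟨hsub n hn.1, fun f hf => hsub _ (hn.2 f hf)⟩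

end Pool.Agent.Results.MP_678834_nt.CommonPatterns
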