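import Mathlib
import Pool.Agent.X26.MC.Tup
import Pool.Agent.Results.MP_678834_nt.ManyDifferences
import Pool.Agent.Results.MP_e87c7d_nt.ProgressionsOfPrimeTuples

/-!
# Prime pairs `p - a_i, p`: any `M` good differences have common patterns

Let `η > 0`. We call an even `a ≤ x` good if `π₂(x, a) ≥ η 𝔖(a) x / log ^ 2 x`. For `η < 1` a positive proportion of the
even `a ≤ log ^ 2 x` is good. We show that for ANY `M` good differences `a_1, …, a_M` a positive proportion of the
vectors `d ∈ [1, D] ^ m`, `D` between a power of `log x` and `x`, serves for ALL `i` and ALL `F ⊆ {0, …, k - 1} ^ m`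
containing `0` at once: the number of the primes `p ≤ x` for which all the `p + ∑ f_j d_j`, `f ∈ F`, are primes `≤ x` and
all the `p - a_i + ∑ f_j d_j` are primes has the order which the Hardy-Littlewood conjecture predicts for the `2 |F|`
forms.
-/

set_option autoImplicit false

namespace Pool.Agent.Results.MP_678834_nt.CommonPrimePatterns

open Finset
open Pool.Agent.Results.MP_678834_nt.ManyDifferences (C2 S pi2)

/-- The number of the residue classes modulo `q` occupied by `T`. -/
def nu (T : Finset ℤ) (q : ℕ) : ℕ := (T.image (fun t : ℤ => t % q)).card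

/-- The local factor `(1 - ν(q) / q) (1 - 1 / q) ^ (-|T|)`. -/
noncomputable def loc (T : Finset ℤ) (q : ℕ) : ℝ := (1 - (nu T q : ℝ) / q) / (1 - 1 / (q : ℝ)) ^ T.card

/-- The singular series, the product of the local factors over all primes. -/
noncomputable def Sing (T : Finset ℤ) : ℝ := ∏' q : Nat.Primes, loc T q

/-- the primes `p ≤ x` with `p - a` prime; their number is `π₂(x, a)` -/
def Pairs (x a : ℕ) : Finset ℕ := (Icc 1 x).filter (fun p : ℕ => p.Prime ∧ (p - a).Prime)

/-- The set of the integers `∑ f_j d_j` and `∑ f_j d_j - a`, `f ∈ F`. -/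
def shifts (a : ℕ) {m : ℕ} (d : Fin m → ℕ) (F : Finset (Fin m → ℕ)) : Finset ℤ :=
  F.image (fun f => ((∑ j, f j * d j : ℕ) : ℤ)) ∪ F.image (fun f => ((∑ j, f j * d j : ℕ) : ℤ) - a)

/-- `a` is even, `2 ≤ a ≤ x` and `π₂(x, a) ≥ η 𝔖(a) x / log ^ 2 x` -/
def Good (η : ℝ) (x a : ℕ) : Prop := Even a ∧ 2 ≤ a ∧ a ≤ x ∧ η * (S a * x / Real.log x ^ 2) ≤ (pi2 x a : ℝ)

theorem Pairs_card (x a : ℕ) : (Pairs x a).card = pi2 x a := by
  unfold Pairs pi2
  rw [Nat.floor_natCast]

theorem nu_pair (a q : ℕ) : nu ({0, -(a : ℤ)} : Finset ℤ) q = nu ({0, (a : ℤ)} : Finset ℤ) q := by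
  unfold nu
  have h : ({0, -(a : ℤ)} : Finset ℤ) = ({0, (a : ℤ)} : Finset ℤ).image (fun t => -t) := by
    rw [image_insert, image_singleton, neg_zero]
  rw [h, image_image]
  apply Pool.Agent.Y843.AC.HL.card_image_eq_of
  intro s _ t _
  simp only [Function.comp]
  constructor
  · intro h
    exact Int.ModEq.neg (h : s ≡ t [ZMOD q])
  · intro h
    have h5 := Int.ModEq.neg (h : -s ≡ -t [ZMOD q])
    rw [neg_neg, neg_neg] at h5
    exact h5

theorem sing_pair {a : ℕ} (ha : 2 ≤ a) (he : Even a) : Sing ({0, -(a : ℤ)} : Finset ℤ) = S a := by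
  have h1 : Sing ({0, -(a : ℤ)} : Finset ℤ) = Sing ({0, (a : ℤ)} : Finset ℤ) := by
    unfold Sing loc
    have e1 : ({0, -(a : ℤ)} : Finset ℤ).card = 2 := card_pair (by omega)
    have e2 : ({0, (a : ℤ)} : Finset ℤ).card = 2 := card_pair (by omega)
    simp only [nu_pair, e1, e2]
  rw [h1]
  have h2 : ({0, (a : ℤ)} : Finset ℤ) = ({0, a} : Finset ℕ).map Nat.castEmbedding := by
    rw [map_insert, map_singleton]
    rfl
  rw [h2]
  have h3 : Sing (({0, a} : Finset ℕ).map Nat.castEmbedding) = Pool.Agent.H387R2.Uni.CT {0, a} :=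
    Pool.Agent.Results.MP_e87c7d_nt.ProgressionsOfPrimeTuples.sing_nat {0, a}
  rw [h3, Pool.Agent.TH891.SG.CT_pair ha he]
  rfl

/-- The function `S` is `𝔖(a) = 2 C₂ ∏_{p ∣ a, p ≥ 3} (p - 1) / (p - 2)`, and `pi2 x a = π₂(x, a)`.
(1) For all `η > 0` and all `M`, `m`, `k` there are `c > 0` and `B` such that for all large `x`, all good
`a_1, …, a_M` and all `D` between `log ^ B x` and `x` at least `c D ^ m` vectors `d` with entries in `[1, D]` have the
following property. For all sets `F` of vectors with entries in `{0, ..., k - 1}` which contain the vector `0` and for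
all `i`, the `2 |F|` integers `∑ f_j d_j`, `∑ f_j d_j - a_i`, `f ∈ F`, are distinct and miss a residue class modulo every
prime, and at least `c 𝔖 x / log ^ (2 |F|) x` elements `p` of `Pairs x a_i` have all the `p + ∑ f_j d_j`, `f ∈ F`, in
`Pairs x a_i`, where `𝔖` is the singular series of that set.
(2) For every `η < 1` there is `κ > 0` such that for all large `x` at least `κ log ^ 2 x` of the `a ≤ log ^ 2 x` are
good. -/
theorem result :
    (∀ η : ℝ, 0 < η → ∀ M m k : ℕ, ∃ c : ℝ, 0 < c ∧ ∃ B x₀ : ℕ, ∀ x : ℕ, x₀ ≤ x → ∀ a : Fin M → ℕ,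
      (∀ i, Good η x (a i)) → ∀ D : ℕ, Real.log x ^ B ≤ D → D ≤ x →
      ∃ G : Finset (Fin m → ℕ), (∀ d ∈ G, ∀ j, 1 ≤ d j ∧ d j ≤ D) ∧ c * (D : ℝ) ^ m ≤ G.card ∧
        ∀ d ∈ G, ∀ F : Finset (Fin m → ℕ), (∀ f ∈ F, ∀ j, f j < k) → (fun _ => 0) ∈ F → ∀ i,
          (shifts (a i) d F).card = 2 * F.card ∧ (∀ q : ℕ, q.Prime → nu (shifts (a i) d F) q < q) ∧
          c * (Sing (shifts (a i) d F) * (x / Real.log x ^ (2 * F.card))) ≤
            (((Pairs x (a i)).filter (fun p => ∀ f ∈ F, p + ∑ j, f j * d j ∈ Pairs x (a i))).card : ℝ)) ∧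
    (∀ η : ℝ, 0 ≤ η → η < 1 → ∃ κ : ℝ, 0 < κ ∧ ∃ x₀ : ℕ, ∀ x : ℕ, x₀ ≤ x → ∃ W : Finset ℕ,
      (∀ a ∈ W, Good η x a ∧ (a : ℝ) ≤ Real.log x ^ 2) ∧ κ * Real.log x ^ 2 ≤ (W.card : ℝ)) := by
  constructor
  · intro η hη M m k
    obtain ⟨c, hc, B, x₀, h⟩ := Pool.Agent.X26.MC.tupM M m k (fun _ => 2) 1 le_rfl (θ := 1) (δ := η) one_pos hη
    refine ⟨c, hc, B, x₀, fun x hx a ha D hD hDx => ?_⟩
    have hadm : ∀ i, Pool.Agent.Y843.AC.HL.Tup 2 x ({0, -(a i : ℤ)} : Finset ℤ) := by
      intro i
      obtain ⟨he, h2, hax, -⟩ := ha i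
      refine ⟨card_pair (by omega), ?_, ?_⟩
      · intro q hq
        unfold Pool.Agent.Y843.AC.HL.nu
        rcases hq.eq_two_or_odd' with h3 | h3
        · subst h3
          obtain ⟨e, he⟩ := he
          have : (({0, -(a i : ℤ)} : Finset ℤ).image (fun t : ℤ => t % ((2 : ℕ) : ℤ))) ⊆ {0} := by
            intro t ht
            rw [mem_image] at ht
            obtain ⟨s, hs, rfl⟩ := ht
            rw [mem_insert, mem_singleton] at hs
            rw [mem_singleton]
            rcases hs with rfl | rfl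
            · norm_num
            · push_cast; omega
          calc _ ≤ #({0} : Finset ℤ) := card_le_card this
            _ < 2 := by rw [card_singleton]; norm_num
        · have h4 : q ≠ 2 := by
            rintro rfl
            exact absurd h3 (by decide)
          have h5 := hq.two_le
          calc _ ≤ #({0, -(a i : ℤ)} : Finset ℤ) := card_image_le
            _ ≤ 2 := card_le_two
            _ < q := by omega
      · intro t ht
        rw [mem_insert, mem_singleton] at ht
        rcases ht with rfl | rfl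
        · simp
        · rw [abs_neg, Nat.abs_cast]; exact_mod_cast hax
    obtain ⟨G, g1, g2, g3⟩ := h x hx (fun i => {0, -(a i : ℤ)}) hadm (fun _ => 0) x D (by rw [Real.rpow_one]) le_rfl
      hD hDx (fun i => Pairs x (a i)) (fun i p hp => by
        unfold Pairs at hp
        rw [mem_filter, mem_Icc] at hp
        rw [mem_Ioc]
        omega) (fun i p hp => by
        left
        unfold Pairs at hp
        rw [mem_filter] at hp
        intro t ht
        rw [mem_insert, mem_singleton] at ht
        rcases ht with rfl | rfl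
        · rw [add_zero, Int.natAbs_natCast]; exact hp.2.1
        · have h3 := hp.2.2.pos
          have e : ((p : ℤ) + -(a i : ℤ)).natAbs = p - a i := by omega
          rw [e]
          exact hp.2.2) (fun i => by
        obtain ⟨he, h2, hax, hg⟩ := ha i
        have e : Pool.Agent.Y843.AC.HL.gg ({0, -(a i : ℤ)} : Finset ℤ) x =
            Sing ({0, -(a i : ℤ)} : Finset ℤ) / Real.log x ^ ({0, -(a i : ℤ)} : Finset ℤ).card := rfl
        rw [e, sing_pair h2 he, (hadm i).card, Pairs_card]
        refine le_trans (le_of_eq ?_) hg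
        ring)
    refine ⟨G, ?_, g2, fun d hd F hF hF0 i => ?_⟩
    · intro d hd j
      have := g1 hd
      rw [Fintype.mem_piFinset] at this
      exact mem_Icc.1 (this j)
    obtain ⟨k1, k2, k3⟩ := g3 d hd F hF hF0 i
    have hS : Pool.Agent.X26.GP.TF ({0, -(a i : ℤ)} : Finset ℤ) d F = shifts (a i) d F := by
      unfold Pool.Agent.X26.GP.TF shifts
      ext t
      simp only [mem_image, mem_product, mem_insert, mem_singleton, mem_union, Prod.exists]
      constructor
      · rintro ⟨b, f, ⟨rfl | rfl, hf⟩, rfl⟩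
        · left; exact ⟨f, hf, by ring⟩
        · right; exact ⟨f, hf, by ring⟩
      · rintro (⟨f, hf, rfl⟩ | ⟨f, hf, rfl⟩)
        · exact ⟨0, f, ⟨Or.inl rfl, hf⟩, by ring⟩
        · exact ⟨-(a i : ℤ), f, ⟨Or.inr rfl, hf⟩, by ring⟩
    rw [hS] at k1 k2 k3
    have e : Pool.Agent.Y843.AC.HL.gg (shifts (a i) d F) x =
        Sing (shifts (a i) d F) / Real.log x ^ (shifts (a i) d F).card := rfl
    rw [e, k1] at k3
    refine ⟨k1, k2, ?_⟩
    have e2 : c * (Sing (shifts (a i) d F) * (x / Real.log x ^ (2 * F.card))) =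
        c * (x * (Sing (shifts (a i) d F) / Real.log x ^ (2 * F.card))) := by ring
    rw [e2]
    refine le_trans k3 (le_of_eq ?_)
    congr!
  · intro η hη0 hη
    classical
    obtain ⟨⟨κ, hκ, X, hX⟩, -, -⟩ := Pool.Agent.Results.MP_678834_nt.ManyDifferences.result 1 1 one_pos one_pos le_rfl
    have hlog := (Real.isLittleO_pow_log_id_atTop (n := 2)).bound (show (0 : ℝ) < 1 by norm_num)
    have h1 := (tendsto_natCast_atTop_atTop (R := ℝ)).eventually (hlog.and (Filter.eventually_ge_atTop (3 : ℝ)))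
    rw [Filter.eventually_atTop] at h1
    obtain ⟨x₁, hx₁⟩ := h1
    refine ⟨κ * (1 - η) ^ (1 + 1 : ℝ), by have : 0 < 1 - η := by linarith
                                          positivity, max x₁ ⌈X⌉₊, fun x hx => ?_⟩
    obtain ⟨h2, h3⟩ := hx₁ x ((le_max_left _ _).trans hx)
    have hx3 : (0 : ℝ) < x := by linarith
    have hlx : 0 < Real.log x := Real.log_pos (by linarith)
    have hxl : Real.log x ^ 2 ≤ x := by
      rw [id, Real.norm_eq_abs, Real.norm_eq_abs, abs_of_nonneg hx3.le, one_mul] at h2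
      exact (le_abs_self _).trans h2
    have hXx : X ≤ x := (Nat.le_ceil X).trans (by exact_mod_cast (le_max_right _ _).trans hx)
    have h4 := hX x hXx (1 - η) (by
      have : -(1 - 1) / Real.log x = 0 := by norm_num
      rw [this]
      linarith) (by linarith)
    refine ⟨Pool.Agent.Results.MP_678834_nt.ManyDifferences.good x (1 - η), ?_, ?_⟩
    · intro a ha
      unfold Pool.Agent.Results.MP_678834_nt.ManyDifferences.good at ha
      rw [mem_filter, mem_Icc] at ha
      obtain ⟨⟨a1, a2⟩, a3, a4⟩ := ha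
      have a5 : (a : ℝ) ≤ Real.log x ^ 2 := by
        have h5 := Nat.floor_le (show 0 ≤ Real.log x ^ 2 by positivity)
        have h6 : (a : ℝ) ≤ ⌊Real.log x ^ 2⌋₊ := by exact_mod_cast a2
        linarith
      refine ⟨⟨a3, a1, ?_, ?_⟩, a5⟩
      · exact_mod_cast a5.trans hxl
      · have e : 1 - (1 - η) = η := by ring
        rw [e] at a4
        exact a4
    · refine le_trans ?_ h4
      apply mul_le_mul_of_nonneg_right _ (by positivity)
      apply mul_le_mul_of_nonneg_left _ hκ.le
      apply Real.rpow_le_rpow (by linarith) _ (by norm_num)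
      have : 0 < 1 / Real.log x := by positivity
      linarith

end Pool.Agent.Results.MP_678834_nt.CommonPrimePatterns
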