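import Mathlib
import Pool.Agent.Y879.AP.Mean2
import Pool.Agent.Y879.GL.Prog2
import Pool.Agent.X262.Cnt

set_option autoImplicit false

/-!
# Regular points of arbitrary sets of almost prime pairs, uniformly in the difference
-/

namespace Pool.Agent.Results.MP_678834_nt.RegularPrimePairs

open Finset Filter

/-- all prime factors of `m` are larger than `X ^ (1 / r)` -/
def AlmostPrime (X r m : ℕ) : Prop := ∀ p : ℕ, p.Prime → p ∣ m → (X : ℝ) ^ (1 / (r : ℝ)) < p

/-- the `n` for which `q n + a` and `q n + a + d` are almost prime -/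
def Pairs (X r d q a : ℕ) : Set ℕ :=
  {n | AlmostPrime X r (q * n + a) ∧ AlmostPrime X r (q * n + a + d)}

open Classical in
/-- the number of the elements of `A` in `(u, v]` -/
noncomputable def count (A : Set ℕ) (u v : ℕ) : ℕ := ((Ioc u v).filter (fun n => n ∈ A)).card

/-- the expected density of the pairs -/
noncomputable def density (X r d q : ℕ) : ℝ :=
  ∏ p ∈ (Icc 1 ⌊(X : ℝ) ^ (1 / (r : ℝ))⌋₊).filter (fun p => p.Prime ∧ ¬ p ∣ q),
    (1 - (if p ∣ d then 1 else 2) / (p : ℝ))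

/-- All intervals `(m - s, m + t]` with `s, t ≤ Y` of length at least `L / c` contain the right order
of elements of `A`. -/
def RightOrder (A : Set ℕ) (L c : ℝ) (Y m : ℕ) : Prop :=
  ∀ s t : ℕ, s ≤ Y → t ≤ Y → L ≤ c * (s + t) →
    c * (s + t) / L ≤ count A (m - s) (m + t) ∧ (count A (m - s) (m + t) : ℝ) ≤ (s + t) / (c * L)

/-- Up to `δ`, `A` has a constant density `lam / L` (`c ≤ lam ≤ 1 / c`) on both sides of `m` up to the
distance `2 ^ j`. -/
def ConstantDensity (A : Set ℕ) (L c δ : ℝ) (m j : ℕ) : Prop :=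
  ∃ lam : ℝ, c ≤ lam ∧ lam ≤ 1 / c ∧ ∀ s t : ℕ, s ≤ 2 ^ j → t ≤ 2 ^ j →
    |(count A (m - s) (m + t) : ℝ) - lam * (s + t) / L| ≤ δ * 2 ^ j / L

open Classical in
/-- the number of the scales `L ≤ 2 ^ j ≤ Y` without this property -/
noncomputable def badScales (A : Set ℕ) (L c δ : ℝ) (Y m : ℕ) : ℕ :=
  ((Finset.range (Nat.log 2 Y + 1)).filter (fun j => L ≤ (2 : ℝ) ^ j ∧
    ¬ ConstantDensity A L c δ m j)).card

/-- The elements of `A` that are not regular points of `A`. -/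
def Irregular (A : Set ℕ) (L c δ : ℝ) (B Y : ℕ) : Set ℕ :=
  {m | m ∈ A ∧ ¬ (RightOrder A L c Y m ∧ badScales A L c δ Y m ≤ B)}

/-- The twin prime constant `C₂`. -/
noncomputable def C2 : ℝ := ∏' p : {p : ℕ // p.Prime ∧ 2 < p}, (1 - 1 / (((p.1 : ℕ) : ℝ) - 1) ^ 2)

/-- `𝔖(d) = 2 C₂ ∏_{p ∣ d, p ≥ 3} (p - 1) / (p - 2)`, used for even `d`. -/
noncomputable def S (d : ℕ) : ℝ :=
  2 * C2 * ∏ p ∈ d.primeFactors.filter (fun p : ℕ => 2 < p), (((p : ℝ) - 1) / ((p : ℝ) - 2))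

open Pool.Agent.Y879.AP Pool.Agent.W123.RP Pool.Agent.H373R2.T7 Pool.Agent.TH464.PO
open Pool.Agent.Y879.GL Pool.Agent.W123.RU Pool.Agent.W123.RU.Poly Pool.Agent.X262.Cnt
open Pool.Agent.TH464.PW

/-- the factor of the twin prime constant -/
noncomputable def tf (n : ℕ) : ℝ := 1 - 1 / ((n : ℝ) - 1) ^ 2

lemma tf_pos {n : ℕ} (hn : 2 < n) : 0 < tf n := by
  unfold tf
  have h : (3 : ℝ) ≤ n := by exact_mod_cast hn
  rw [sub_pos, div_lt_one (by nlinarith)]
  nlinarith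

lemma summable_aux : Summable (fun p : {p : ℕ // p.Prime ∧ 2 < p} => 1 / (((p : ℕ) : ℝ) - 1) ^ 2) := by
  have h1 : Summable (fun n : ℕ => 4 * (1 / (n : ℝ) ^ 2)) :=
    (Real.summable_one_div_nat_pow.2 (by norm_num)).mul_left 4
  have h2 : Summable (fun p : {p : ℕ // p.Prime ∧ 2 < p} => 4 * (1 / ((p : ℕ) : ℝ) ^ 2)) :=
    h1.comp_injective Subtype.val_injective
  refine Summable.of_nonneg_of_le (fun p => by positivity) (fun p => ?_) h2
  have h3 : (3 : ℝ) ≤ (p : ℕ) := by exact_mod_cast p.2.2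
  rw [mul_one_div, div_le_div_iff₀ (by nlinarith) (by positivity)]
  nlinarith

lemma mult_tf : Multipliable (fun p : {p : ℕ // p.Prime ∧ 2 < p} => tf p) := by
  have h := Real.multipliable_one_add_of_summable (summable_aux.neg)
  refine h.congr fun p => ?_
  unfold tf
  ring

lemma C2_pos : 0 < C2 := by
  have h1 : Summable (fun p : {p : ℕ // p.Prime ∧ 2 < p} => Real.log (tf p)) := by
    have := Real.summable_log_one_add_of_summable (summable_aux.neg)
    refine this.congr fun p => ?_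
    unfold tf
    ring_nf
  have h2 := Real.rexp_tsum_eq_tprod (fun p : {p : ℕ // p.Prime ∧ 2 < p} => tf_pos p.2.2) h1
  have h3 : C2 = ∏' p : {p : ℕ // p.Prime ∧ 2 < p}, tf p := rfl
  rw [h3, ← h2]
  exact Real.exp_pos _

lemma C2_lim : Tendsto (fun y : ℕ => ∏ p ∈ (Icc 1 y).filter (fun p => p.Prime ∧ 2 < p), tf p) atTop
    (nhds C2) := by
  have h1 : HasProd ((fun n : ℕ => tf n) ∘ ((↑) : {p : ℕ | p.Prime ∧ 2 < p} → ℕ)) C2 := mult_tf.hasProd
  rw [hasProd_subtype_iff_mulIndicator] at h1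
  have h2 := (h1.tendsto_prod_nat).comp (tendsto_add_atTop_nat 1)
  refine h2.congr fun y => ?_
  simp only [Function.comp]
  rw [Finset.prod_mulIndicator_eq_prod_filter]
  apply Finset.prod_congr _ (fun _ _ => rfl)
  ext p
  simp only [mem_filter, mem_range, mem_Icc, Set.mem_ofPred_eq]
  constructor
  · rintro ⟨h3, h4, h5⟩
    exact ⟨by omega, h4, h5⟩
  · rintro ⟨h3, h4, h5⟩
    exact ⟨by omega, h4, h5⟩

lemma nu2_nat (d p : ℕ) : (nu2 (d : ℤ) p : ℝ) = if p ∣ d then 1 else 2 := by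
  unfold nu2
  by_cases h : p ∣ d
  · rw [if_pos (Int.natCast_dvd_natCast.2 h), if_pos h]
    norm_num
  · rw [if_neg (fun h1 => h (Int.natCast_dvd_natCast.1 h1)), if_neg h]
    norm_num

/-- the truncated singular series of a pair -/
lemma series_pair (d y : ℕ) (hd : 1 ≤ d) (he : Even d) (hdy : d ≤ y) : SS (Q2 1 d) 2 y =
    2 * (∏ p ∈ (Icc 1 y).filter (fun p => p.Prime ∧ 2 < p), tf p) *
      ∏ p ∈ d.primeFactors.filter (fun p : ℕ => 2 < p), (((p : ℝ) - 1) / ((p : ℝ) - 2)) := by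
  have h2d : 2 ∣ d := he.two_dvd
  have h2y : 2 ≤ y := (Nat.le_of_dvd (by omega) h2d).trans hdy
  have hpz : pz y = insert 2 ((Icc 1 y).filter (fun p => p.Prime ∧ 2 < p)) := by
    ext p
    rw [mem_pz, mem_insert, mem_filter, mem_Icc]
    constructor
    · rintro ⟨h1, h2⟩
      have := h2.two_le
      by_cases h3 : p = 2
      · exact Or.inl h3
      · exact Or.inr ⟨⟨by omega, h1⟩, h2, by omega⟩
    · rintro (rfl | h)
      · exact ⟨h2y, Nat.prime_two⟩
      · exact ⟨h.1.2, h.2.1⟩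
  have hsub : d.primeFactors.filter (fun p : ℕ => 2 < p) =
      ((Icc 1 y).filter (fun p => p.Prime ∧ 2 < p)).filter (fun p => p ∣ d) := by
    ext p
    rw [mem_filter, mem_filter, mem_filter, Nat.mem_primeFactors, mem_Icc]
    constructor
    · rintro ⟨⟨h1, h2, h3⟩, h4⟩
      exact ⟨⟨⟨h1.pos, (Nat.le_of_dvd (by omega) h2).trans hdy⟩, h1, h4⟩, h2⟩
    · rintro ⟨⟨_, h1, h4⟩, h2⟩
      exact ⟨⟨h1, h2, by omega⟩, h4⟩
  unfold SS
  rw [hpz, Finset.prod_insert (by simp), hsub, Finset.prod_filter (fun p => p ∣ d), mul_assoc, ← Finset.prod_mul_distrib]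
  congr 1
  · rw [nuB_Q2 1 d (by norm_num) 2 Nat.prime_two, nu2_nat, if_pos h2d]
    norm_num
  · refine Finset.prod_congr rfl fun p hp => ?_
    rw [mem_filter] at hp
    rw [nuB_Q2 1 d (by norm_num) p hp.2.1, nu2_nat]
    have hp3 : (3 : ℝ) ≤ p := by exact_mod_cast hp.2.2
    have a0 : (p : ℝ) ≠ 0 := by linarith
    have a1 : (p : ℝ) - 1 ≠ 0 := by linarith
    have a2 : (p : ℝ) - 2 ≠ 0 := by linarith
    have a3 : (1 - 1 / (p : ℝ)) = ((p : ℝ) - 1) / p := by field_simp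
    unfold tf
    split_ifs with h
    · rw [a3]
      field_simp
      ring
    · rw [a3]
      field_simp
      ring

lemma S_pos (d : ℕ) : 0 < S d := by
  unfold S
  have := C2_pos
  have h : 0 < ∏ p ∈ d.primeFactors.filter (fun p : ℕ => 2 < p), (((p : ℝ) - 1) / ((p : ℝ) - 2)) := by
    apply Finset.prod_pos
    intro p hp
    rw [mem_filter] at hp
    have hp3 : (3 : ℝ) ≤ p := by exact_mod_cast hp.2
    apply div_pos <;> linarith
  positivity

lemma density_eq (X r d q : ℕ) :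
    density X r d q = Vq (Qn (Q2 1 d) q) ⌊(X : ℝ) ^ (1 / (r : ℝ))⌋₊ := by
  unfold density Vq
  rw [← Finset.filter_filter, Finset.prod_filter]
  unfold pz
  refine Finset.prod_congr rfl fun p hp => ?_
  have hpp := (mem_filter.1 hp).2
  by_cases hd : p ∣ q
  · rw [if_neg (by simpa using hd), nuB_Qn_dvd _ _ _ hd]
    simp
  · rw [if_pos hd, nuB_Qn_not _ _ _ hd, nuB_Q2 1 d (by norm_num) p hpp, nu2_nat]

lemma RD_one (Q : ℕ → ℕ → Prop) : RD Q 1 = 1 := by
  unfold RD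
  simp

/-- the density in terms of the singular series, uniformly for `d ≤ log ^ 2 X` -/
lemma density_asym (r : ℕ) (hr : 2 ≤ r) (ε : ℝ) (hε : 0 < ε) : ∀ᶠ X : ℕ in atTop, ∀ d : ℕ, Even d →
    2 ≤ d → (d : ℝ) ≤ Real.log X ^ 2 →
    |density X r d 1 * Real.log X ^ 2 - (r * Real.exp (-Real.eulerMascheroniConstant)) ^ 2 * S d| ≤
      ε * S d := by
  obtain ⟨M, hM⟩ : ∃ M, M = (r * Real.exp (-Real.eulerMascheroniConstant)) ^ 2 := ⟨_, rfl⟩
  have hM0 : 0 ≤ M := by rw [hM]; positivity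
  rw [← hM]
  have hrr : (2 : ℝ) ≤ r := by exact_mod_cast hr
  have hpowr : Tendsto (fun X : ℕ => (X : ℝ) ^ (1 / (r : ℝ))) atTop atTop :=
    (tendsto_rpow_atTop (by positivity)).comp tendsto_natCast_atTop_atTop
  have hfl : Tendsto (fun X : ℕ => ⌊(X : ℝ) ^ (1 / (r : ℝ))⌋₊) atTop atTop :=
    tendsto_nat_floor_atTop.comp hpowr
  have hC := C2_pos
  have h1 : Tendsto (fun X : ℕ => (∏ p ∈ (Icc 1 ⌊(X : ℝ) ^ (1 / (r : ℝ))⌋₊).filter
      (fun p => p.Prime ∧ 2 < p), tf p) / C2) atTop (nhds 1) := by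
    have := (C2_lim.comp hfl).div_const C2
    rwa [div_self hC.ne'] at this
  obtain ⟨η, hη⟩ : ∃ η : ℝ, η = min 1 (ε / (2 * (M + 1))) := ⟨_, rfl⟩
  have hη0 : 0 < η := by rw [hη]; positivity
  have hη1 : η ≤ 1 := by rw [hη]; exact min_le_left _ _
  have hη2 : η * (2 * (M + 1)) ≤ ε := by
    rw [← le_div_iff₀ (by positivity), hη]
    exact min_le_right _ _
  have h2 := (Metric.tendsto_nhds.1 h1) η hη0
  filter_upwards [mean_gen 2 2 1 one_pos r hr (ε / 4) (by positivity), h2,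
    logpow_rpow 2 1 (1 / (r : ℝ)) one_pos (by positivity), eventually_ge_atTop 1] with X a1 a2 a3 a4
  intro d he hd hdX
  have hX1 : (1 : ℝ) ≤ X := by exact_mod_cast a4
  have heZ : Even (d : ℤ) := by exact_mod_cast he
  have a5 := a1 (Q2 1 d) 1 (perB_Q2 1 d (by norm_num)) (adm_Q2 1 d (by norm_num) heZ) le_rfl
    (by push_cast; exact Real.one_le_rpow hX1 zero_le_one)
  rw [RD_one, mul_one, ← density_eq, ← hM, series_pair d _ (by omega) he
    (Nat.le_floor (by rw [one_mul] at a3; exact hdX.trans a3))] at a5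
  rw [Real.dist_eq] at a2
  obtain ⟨P, hP⟩ : ∃ P, P = ∏ p ∈ (Icc 1 ⌊(X : ℝ) ^ (1 / (r : ℝ))⌋₊).filter
      (fun p => p.Prime ∧ 2 < p), tf p := ⟨_, rfl⟩
  obtain ⟨R, hR⟩ : ∃ R, R = ∏ p ∈ d.primeFactors.filter (fun p : ℕ => 2 < p),
    (((p : ℝ) - 1) / ((p : ℝ) - 2)) := ⟨_, rfl⟩
  have hS : S d = 2 * C2 * R := by rw [hR]; rfl
  rw [← hP] at a2 a5
  rw [← hR] at a5
  have hS0 := S_pos d
  obtain ⟨ρ, hρ⟩ : ∃ ρ, ρ = P / C2 := ⟨_, rfl⟩
  have e1 : 2 * P * R = ρ * S d := by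
    rw [hS, hρ]
    field_simp
  rw [e1] at a5
  rw [← hρ] at a2
  have b1 := (abs_lt.1 a2).1
  have b2 := (abs_lt.1 a2).2
  have c1 : |M * (ρ * S d) - M * S d| ≤ M * η * S d := by
    rw [show M * (ρ * S d) - M * S d = M * S d * (ρ - 1) by ring, abs_mul,
      abs_of_nonneg (by positivity)]
    calc M * S d * |ρ - 1| ≤ M * S d * η := mul_le_mul_of_nonneg_left a2.le (by positivity)
      _ = _ := by ring
  have c2 := abs_sub_le (density X r d 1 * Real.log X ^ 2) (M * (ρ * S d)) (M * S d)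
  have c3 : ε / 4 * (ρ * S d) ≤ ε / 2 * S d := by
    calc ε / 4 * (ρ * S d) = ε / 4 * S d * ρ := by ring
      _ ≤ ε / 4 * S d * 2 := mul_le_mul_of_nonneg_left (by linarith) (by positivity)
      _ = _ := by ring
  have c4 : M * η * S d ≤ ε / 2 * S d := by
    apply mul_le_mul_of_nonneg_right _ hS0.le
    nlinarith
  linarith

lemma pairs_iff (X r d q a m : ℕ) : m ∈ Pairs X r d q a ↔
    Sf (Q (pf 1 d q a)) ⌊(X : ℝ) ^ (1 / (r : ℝ))⌋₊ m := by
  have hQ : ∀ p : ℕ, p.Prime → (Q (pf 1 d q a) p m ↔ (p ∣ q * m + a ∨ p ∣ q * m + a + d)) := by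
    intro p hp
    rw [pf_Q 1 d q a p m hp]
    unfold Q2
    rw [one_mul, show (((q * m + a : ℕ) : ℤ)) * (((q * m + a : ℕ) : ℤ) + (d : ℤ)) =
      (((q * m + a) * (q * m + a + d) : ℕ) : ℤ) by push_cast; ring, Int.natCast_dvd_natCast,
      hp.dvd_mul]
  unfold Pairs AlmostPrime Sf
  rw [Set.mem_ofPred_eq]
  constructor
  · rintro ⟨h1, h2⟩ p hp hd
    have hpp := (mem_pz.1 hp).2
    have h3 : (p : ℝ) ≤ (X : ℝ) ^ (1 / (r : ℝ)) := (Nat.le_floor_iff (by positivity)).1 (mem_pz.1 hp).1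
    rcases (hQ p hpp).1 hd with h | h
    · linarith [h1 p hpp h]
    · linarith [h2 p hpp h]
  · intro h
    constructor
    · intro p hp hd
      by_contra hlt
      exact h p (mem_pz.2 ⟨Nat.le_floor (not_lt.1 hlt), hp⟩) ((hQ p hp).2 (Or.inl hd))
    · intro p hp hd
      by_contra hlt
      exact h p (mem_pz.2 ⟨Nat.le_floor (not_lt.1 hlt), hp⟩) ((hQ p hp).2 (Or.inr hd))

lemma cop_int (q a d : ℕ) (h : Nat.Coprime q (a + d)) : IsCoprime (q : ℤ) (1 * a + d) := by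
  rw [one_mul]
  have := Nat.isCoprime_iff_coprime.2 h
  push_cast at this
  exact this

open Classical in
/-- **Regular points of arbitrary sets of almost prime pairs, uniformly in the difference.** Let
`A, θ > 0`. There is `r₀` such that for all `r ≥ r₀`, with `V = density X r d q`:

(1) Prime pairs `q n + a`, `q n + a + d` with `q n + a > X ^ (1 / r)` are in `Pairs X r d q a`.

(2) For all large `X`, all even `d`, all `q`, `a` (with `a` and `a + d` prime to `q`) and all intervals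
`(u, u + Y]` with `Y ≥ X ^ θ` the number of the almost prime pairs in the interval is between `Y V / 2`
and `3 Y V / 2`.

(3) For every `ε > 0` there is `c > 0` and for every `δ > 0` there is `B` such that for all large `X`,
all even `d`, all `q`, `a` with `d, q, a ≤ X ^ A` and all `X ^ θ ≤ Y ≤ X`, `Y ≤ u`: if `S` is ANY set of
almost prime pairs, for example the set of all prime pairs, then all but at most `ε Y V` of the elements of
`S` in `(u, u + Y]` are regular points of `S`: all intervals around the point, of length at least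
`1 / (c V)` and with end points within `Y`, contain the right order of elements of `S`, and `S` has up to
`δ` a constant density around the point at all but `B` of the scales `1 / V ≤ 2 ^ j ≤ Y`.

(4) For `q = 1` and `2 ≤ d ≤ log ^ 2 X` the density is `(r exp (-γ)) ^ 2 𝔖(d) / log ^ 2 X` asymptotically,
uniformly in `d`. -/
theorem result (A θ : ℝ) (hA : 0 < A) (hθ : 0 < θ) :
    ∃ r₀ : ℕ, 2 ≤ r₀ ∧ ∀ r : ℕ, r₀ ≤ r →
      (∀ X d q a n : ℕ, (q * n + a).Prime → (q * n + a + d).Prime →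
        (X : ℝ) ^ (1 / (r : ℝ)) < ((q * n + a : ℕ) : ℝ) → n ∈ Pairs X r d q a) ∧
      (∀ᶠ X : ℕ in atTop, ∀ d q a : ℕ, Even d → Nat.Coprime q a → Nat.Coprime q (a + d) → 1 ≤ q →
        ∀ u Y : ℕ, (X : ℝ) ^ θ ≤ Y →
        |(count (Pairs X r d q a) u (u + Y) : ℝ) - Y * density X r d q| ≤
          1 / 2 * (Y * density X r d q)) ∧
      (∀ ε : ℝ, 0 < ε → ∃ c : ℝ, 0 < c ∧ ∀ δ : ℝ, 0 < δ → ∃ B : ℕ, ∀ᶠ X : ℕ in atTop,
        ∀ d q a : ℕ, Even d → 2 ≤ d → (d : ℝ) ≤ (X : ℝ) ^ A → 1 ≤ q → (q : ℝ) ≤ (X : ℝ) ^ A →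
        (a : ℝ) ≤ (X : ℝ) ^ A → Nat.Coprime q a → Nat.Coprime q (a + d) →
        ∀ u Y : ℕ, (X : ℝ) ^ θ ≤ Y → Y ≤ X → Y ≤ u → ∀ S : Set ℕ, S ⊆ Pairs X r d q a →
        (count (Irregular S (1 / density X r d q) c δ B Y) u (u + Y) : ℝ) ≤
          ε * (Y * density X r d q)) ∧
      (∀ ε : ℝ, 0 < ε → ∀ᶠ X : ℕ in atTop, ∀ d : ℕ, Even d → 2 ≤ d → (d : ℝ) ≤ Real.log X ^ 2 →
        |density X r d 1 * Real.log X ^ 2 -
          (r * Real.exp (-Real.eulerMascheroniConstant)) ^ 2 * S d| ≤ ε * S d) := by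
  obtain ⟨r1, hr1, h1⟩ := count_unif 3 (by norm_num) θ (1 / 2) hθ (by norm_num)
  obtain ⟨r2, hr2, h2⟩ := prog2_her A θ hA hθ
  refine ⟨max r1 r2, hr1.trans (le_max_left _ _), ?_⟩
  intro r hr
  have hrr : 2 ≤ r := (hr1.trans (le_max_left _ _)).trans hr
  refine ⟨?_, ?_, ?_, fun ε hε => density_asym r hrr ε hε⟩
  · intro X d q a n hp1 hp2 hX
    constructor
    · intro p hp hd
      rw [(Nat.prime_dvd_prime_iff_eq hp hp1).1 hd]
      exact hX
    · intro p hp hd
      rw [(Nat.prime_dvd_prime_iff_eq hp hp2).1 hd]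
      push_cast at hX ⊢
      have : (0 : ℝ) ≤ d := Nat.cast_nonneg d
      linarith
  · filter_upwards [h1 r ((le_max_left _ _).trans hr)] with X hX
    intro d q a he hqa hqd hq u Y hY
    have heZ : Even (d : ℤ) := by exact_mod_cast he
    have hper2 : PerB (Q (pf 1 d q a)) 3 := by
      have := us_perB (pf_us 1 d (by norm_num) heZ q a hq hqa (cop_int q a d hqd)
        ((q : ℝ) + ((a : ℝ) + |((d : ℤ) : ℝ)|)) (by
          have := abs_nonneg ((d : ℤ) : ℝ)
          have : (0 : ℝ) ≤ a := Nat.cast_nonneg a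
          linarith) (by
          have : (0 : ℝ) ≤ q := Nat.cast_nonneg q
          linarith))
      exact this
    have hadm : ∀ p : ℕ, p.Prime → nuB (Q (pf 1 d q a)) p < p := by
      intro p hp
      rw [pf_nuB 1 d (by norm_num) q a p hp hqa (cop_int q a d hqd)]
      exact adm_Qn _ (adm_Q2 1 d (by norm_num) heZ) q p hp
    have h3 := hX (Q (pf 1 d q a)) hper2 hadm u Y hY
    rw [pf_Vq 1 d (by norm_num) q a _ hqa (cop_int q a d hqd), ← density_eq] at h3
    have h4 : count (Pairs X r d q a) u (u + Y) = ((Ioc u (u + Y)).filter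
        (fun n => Sf (Q (pf 1 d q a)) ⌊(X : ℝ) ^ (1 / (r : ℝ))⌋₊ n)).card := by
      unfold count
      apply card_iff
      intro n _
      exact pairs_iff X r d q a n
    rw [h4]
    exact h3
  · intro ε hε
    obtain ⟨c, hc, h3⟩ := h2 r ((le_max_right _ _).trans hr) ε hε
    refine ⟨c, hc, fun δ hδ => ?_⟩
    obtain ⟨B, h4⟩ := h3 δ hδ
    refine ⟨B, ?_⟩
    filter_upwards [h4] with X hX
    intro d q a he hd hdX hq hqX haX hqa hqd u Y hY hYX hYu S hS
    rw [density_eq]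
    exact hX 1 d q a (by norm_num) (by exact_mod_cast he) (by omega) (by
      push_cast
      rw [abs_of_nonneg (Nat.cast_nonneg d)]
      exact hdX) hq hqX haX hqa (cop_int q a d hqd) u Y hY hYX hYu S
      (fun m hm => (pairs_iff X r d q a m).1 (hS hm))

end Pool.Agent.Results.MP_678834_nt.RegularPrimePairs
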